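import Mathlib
import Pool.Agent.R627.MetricDual

/-!
# The weight of the metric bidual is at least the weight of the metric dual
-/

set_option autoImplicit false
set_option linter.style.haveILetI false

namespace Pool.Agent.Results.MP_e4445d_al.BidualWeight

open Topology Pool.Agent.R627.MetricDual Cardinal TopologicalSpace

universe u

/-- The topological weight: the least cardinality of a base. -/
noncomputable def tw (X : Type u) [TopologicalSpace X] : Cardinal.{u} :=
  sInf {c : Cardinal.{u} | ∃ B : Set (Set X), IsTopologicalBasis B ∧ #B = c}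

theorem exists_base (X : Type u) [TopologicalSpace X] :
    ∃ B : Set (Set X), IsTopologicalBasis B ∧ #B = tw X :=
  csInf_mem (s := {c : Cardinal.{u} | ∃ B : Set (Set X), IsTopologicalBasis B ∧ #B = c})
    ⟨_, {U | IsOpen U}, isTopologicalBasis_opens, rfl⟩

theorem tw_le {X : Type u} [TopologicalSpace X] {B : Set (Set X)} (hB : IsTopologicalBasis B) :
    tw X ≤ #B := csInf_le' ⟨B, hB, rfl⟩

theorem tw_le_of_dense {X : Type u} [MetricSpace X] {S : Set X} (hS : Dense S) :
    tw X ≤ max #S ℵ₀ := by
  let f : S × ℕ → Set X := fun t => Metric.ball t.1.1 (1 / ((t.2 : ℝ) + 1))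
  have hB : IsTopologicalBasis (Set.range f) := by
    apply isTopologicalBasis_of_isOpen_of_nhds
    · rintro _ ⟨t, rfl⟩
      exact Metric.isOpen_ball
    · intro x U hx hU
      obtain ⟨ε, hε, hεU⟩ := Metric.isOpen_iff.mp hU x hx
      obtain ⟨n, hn⟩ := exists_nat_one_div_lt (half_pos hε)
      obtain ⟨s, hs, hd⟩ := hS.exists_dist_lt x (show (0 : ℝ) < 1 / ((n : ℝ) + 1) by positivity)
      refine ⟨_, ⟨(⟨s, hs⟩, n), rfl⟩, hd, ?_⟩
      intro y hy
      apply hεU
      have h1 : dist y s < 1 / ((n : ℝ) + 1) := hy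
      have h2 := dist_triangle_right y x s
      rw [Metric.mem_ball]
      linarith
  refine (tw_le hB).trans (Cardinal.mk_range_le.trans ?_)
  have h0 : ℵ₀ ≤ max #S ℵ₀ := le_max_right _ _
  have e1 : #(S × ℕ) = #S * ℵ₀ := by simp
  rw [e1]
  calc #S * ℵ₀ ≤ max #S ℵ₀ * max #S ℵ₀ := mul_le_mul' (le_max_left _ _) h0
    _ = max #S ℵ₀ := Cardinal.mul_eq_self h0

theorem exists_dense_le {X : Type u} [TopologicalSpace X] {B : Set (Set X)}
    (hB : IsTopologicalBasis B) : ∃ S : Set X, Dense S ∧ #S ≤ #B := by
  classical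
  let B' : Set B := {b | (b : Set X).Nonempty}
  let f : B' → X := fun b => b.2.some
  refine ⟨Set.range f, ?_, Cardinal.mk_range_le.trans (Cardinal.mk_set_le _)⟩
  rw [hB.dense_iff]
  intro b hb hne
  exact ⟨_, (show Set.Nonempty _ from hne).some_mem, ⟨⟨⟨b, hb⟩, hne⟩, rfl⟩⟩

theorem tw_le_card {X : Type u} [TopologicalSpace X] [DiscreteTopology X] : tw X ≤ #X := by
  refine (tw_le (isTopologicalBasis_singletons X)).trans ?_
  have : {s : Set X | ∃ x : X, (s : Set X) = {x}} = Set.range fun x : X => ({x} : Set X) := by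
    ext s
    constructor
    · rintro ⟨x, rfl⟩; exact ⟨x, rfl⟩
    · rintro ⟨x, rfl⟩; exact ⟨x, rfl⟩
  rw [this]
  exact Cardinal.mk_range_le

theorem card_le_of_finite {X : Type u} [TopologicalSpace X] [T2Space X] {B : Set (Set X)}
    (hB : IsTopologicalBasis B) (hf : #B < ℵ₀) : Finite X ∧ #X ≤ #B := by
  haveI : Finite B := Cardinal.lt_aleph0_iff_finite.mp hf
  have hfin : Finite X := by
    apply Finite.of_injective (fun x : X => {b : B | x ∈ (b : Set X)})
    intro x y hxy
    by_contra hne
    obtain ⟨b, hb, hxb, hby⟩ := hB.exists_subset_of_mem_open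
      (show x ∈ ({y} : Set X)ᶜ from hne) isOpen_compl_singleton
    have h1 : (⟨b, hb⟩ : B) ∈ {b : B | x ∈ (b : Set X)} := hxb
    have hxy' : {b : B | x ∈ (b : Set X)} = {b : B | y ∈ (b : Set X)} := hxy
    have h2 : (⟨b, hb⟩ : B) ∈ {b : B | y ∈ (b : Set X)} := hxy' ▸ h1
    exact hby h2 rfl
  refine ⟨hfin, ?_⟩
  have h : ∀ x : X, ({x} : Set X) ∈ B := by
    intro x
    obtain ⟨b, hb, hxb, hby⟩ := hB.exists_subset_of_mem_open
      (show x ∈ ({x} : Set X) from rfl) (isOpen_discrete _)
    have : b = {x} := Set.Subset.antisymm hby (Set.singleton_subset_iff.mpr hxb)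
    rwa [← this]
  exact Cardinal.mk_le_of_injective (f := fun x : X => (⟨{x}, h x⟩ : B))
    (fun x y hxy => Set.singleton_injective (congrArg Subtype.val hxy))

/-- A finite abelian group has at most as many characters as elements. -/
theorem card_hom_le (A : Type u) [AddCommGroup A] [Finite A] : #(A →+ UnitAddCircle) ≤ #A := by
  haveI : Fintype A := Fintype.ofFinite A
  let F : (A →+ UnitAddCircle) → AddChar A ℂ := fun f =>
    { toFun := fun a => (AddCircle.toCircle (f a) : ℂ)
      map_zero_eq_one' := by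
        rw [map_zero, AddCircle.toCircle_zero]
        rfl
      map_add_eq_mul' := by
        intro a b
        rw [map_add, AddCircle.toCircle_add]
        rfl }
  have hF : Function.Injective F := by
    intro f g h
    ext a
    apply AddCircle.injective_toCircle (T := (1 : ℝ)) one_ne_zero
    apply Circle.ext
    exact congrArg (fun ψ : AddChar A ℂ => ψ a) h
  refine (Cardinal.mk_le_of_injective hF).trans (le_of_eq ?_)
  rw [Cardinal.mk_fintype, Cardinal.mk_fintype, AddChar.card_eq]

/-- For every normed abelian group `G`, the weight of the metric bidual `G''` is at least the weight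
of the metric dual `G'`. -/
theorem result (G : Type u) [NormedAddCommGroup G] : tw (MDual G) ≤ tw (MDual (MDual G)) := by
  obtain ⟨B, hB, hBw⟩ := exists_base (MDual (MDual G))
  rw [← hBw]
  rcases lt_or_ge #B ℵ₀ with hf | hinf
  · obtain ⟨hfin, hcard⟩ := card_le_of_finite hB hf
    let F : MDual G → (MDual (MDual G) →+ UnitAddCircle) := fun χ =>
      AddMonoidHom.mk' (fun ξ => ξ.hom χ) (fun ξ η => by
        rw [map_add, AddMonoidHom.add_apply])
    have hF : Function.Injective F := by
      intro χ ψ h
      apply MDual.ext'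
      intro x
      exact congrArg (fun g : MDual (MDual G) →+ UnitAddCircle =>
        g (ofBall _ (eval_mem (R := ‖x‖) (x := x) le_rfl))) h
    have h1 : #(MDual G) ≤ #(MDual (MDual G)) :=
      (Cardinal.mk_le_of_injective hF).trans (card_hom_le _)
    haveI : Finite (MDual G) := by
      rw [← Cardinal.lt_aleph0_iff_finite]
      exact lt_of_le_of_lt (h1.trans hcard) hf
    exact tw_le_card.trans (h1.trans hcard)
  · obtain ⟨T, hT, hTB⟩ := exists_dense_le hB
    obtain ⟨S, hS, hST⟩ := exists_dense T hT
    refine (tw_le_of_dense hS).trans ?_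
    have h1 : max #T ℵ₀ ≤ #B := max_le hTB hinf
    exact max_le (hST.trans h1) hinf

end Pool.Agent.Results.MP_e4445d_al.BidualWeight
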